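import Pool.Agent.Lib.MP_a13136_an.Window

namespace Pool.Agent.Lib.MP_a13136_an

open Real Finset ComplexConjugate

lemma exp_bernoulli {δ : ℝ} (h0 : 0 ≤ δ) (h1 : δ ≤ 1) (x : ℝ) :
    exp (δ * x) ≤ 1 + δ * (exp x - 1) := by
  have := convexOn_exp.2 (Set.mem_univ x) (Set.mem_univ 0) h0 (sub_nonneg.2 h1) (by ring)
  simp only [smul_eq_mul, mul_zero, add_zero, exp_zero, mul_one] at this
  linarith

lemma exp_err {δ : ℝ} (h0 : 0 ≤ δ) (h1 : δ ≤ 1) (L : ℝ) :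
    |exp (δ * L) - 1 - δ * L| ≤ 4 * δ ^ 2 * (exp L + exp (-L)) := by
  have a1 := add_one_le_exp (δ * L)
  rw [abs_of_nonneg (by linarith)]
  set s := exp (δ * (L / 2)) with hs
  set s' := exp (δ * (-L / 2)) with hs'
  have hss : s * s' = 1 := by
    rw [hs, hs', ← exp_add, show δ * (L / 2) + δ * (-L / 2) = 0 by ring, exp_zero]
  have e1 : exp (δ * L) = s * s := by
    rw [hs, ← exp_add]; congr 1; ring
  have e2 : exp (-(δ * L)) = s' * s' := by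
    rw [hs', ← exp_add]; congr 1; ring
  have a2 := add_one_le_exp (-(δ * L))
  set t := exp (L / 2) with ht
  set t' := exp (-L / 2) with ht'
  have e3 : exp L = t * t := by
    rw [ht, ← exp_add]; congr 1; ring
  have e4 : exp (-L) = t' * t' := by
    rw [ht', ← exp_add]; congr 1; ring
  have b1 : s ≤ 1 + δ * (t - 1) := exp_bernoulli h0 h1 _
  have b2 : s' ≤ 1 + δ * (t' - 1) := exp_bernoulli h0 h1 _
  have hs0 : 0 < s := exp_pos _
  have hs0' : 0 < s' := exp_pos _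
  have ht0 : 0 < t := exp_pos _
  have ht0' : 0 < t' := exp_pos _
  have c0 : 2 ≤ s + s' := by nlinarith [sq_nonneg (s - 1), sq_nonneg (s' - 1), sq_nonneg (s - s')]
  have c1 : s - s' ≤ 2 * δ * t := by nlinarith
  have c2 : s' - s ≤ 2 * δ * t' := by nlinarith
  have c3 : (s - s') ^ 2 ≤ 4 * δ ^ 2 * (t * t + t' * t') := by
    have p1 : 0 ≤ δ * t := by positivity
    have p2 : 0 ≤ δ * t' := by positivity
    rcases le_total s s' with h | h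
    · have : (s' - s) ^ 2 ≤ (2 * δ * t') ^ 2 := pow_le_pow_left₀ (by linarith) c2 2
      nlinarith [sq_nonneg (δ * t)]
    · have : (s - s') ^ 2 ≤ (2 * δ * t) ^ 2 := pow_le_pow_left₀ (by linarith) c1 2
      nlinarith [sq_nonneg (δ * t')]
  rw [e3, e4]
  nlinarith

/-- the weighted pairing -/
noncomputable def E (δ : ℝ) (a b : ℂ) : ℝ := R a b * exp (δ * (log ‖a‖ - log ‖b‖))

lemma F_swap (a b : ℂ) : F b a = -F a b := by
  rw [F, F, R_comm]; ring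

lemma E_err {δ : ℝ} (h0 : 0 ≤ δ) (h1 : δ ≤ 1) (a b : ℂ) :
    |E δ a b - R a b - δ * F b a| ≤ 4 * δ ^ 2 * (‖a‖ ^ 2 + ‖b‖ ^ 2) := by
  rcases eq_or_ne a 0 with rfl | ha
  · simp only [E, F, R, zero_mul, Complex.zero_re, map_zero, mul_zero, sub_zero, abs_zero]
    positivity
  rcases eq_or_ne b 0 with rfl | hb
  · simp only [E, F, R, zero_mul, Complex.zero_re, map_zero, mul_zero, sub_zero, abs_zero]
    positivity
  have ha' : 0 < ‖a‖ := norm_pos_iff.2 ha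
  have hb' : 0 < ‖b‖ := norm_pos_iff.2 hb
  have h := exp_err h0 h1 (log ‖a‖ - log ‖b‖)
  have e : E δ a b - R a b - δ * F b a =
      R a b * (exp (δ * (log ‖a‖ - log ‖b‖)) - 1 - δ * (log ‖a‖ - log ‖b‖)) := by
    rw [E, F, R_comm b a]; ring
  rw [neg_sub, exp_sub (log ‖a‖), exp_sub (log ‖b‖), exp_log ha', exp_log hb'] at h
  rw [e, abs_mul]
  have h2 : (‖a‖ * ‖b‖) * (‖a‖ / ‖b‖ + ‖b‖ / ‖a‖) = ‖a‖ ^ 2 + ‖b‖ ^ 2 := by field_simp
  calc _ ≤ (‖a‖ * ‖b‖) * (4 * δ ^ 2 * (‖a‖ / ‖b‖ + ‖b‖ / ‖a‖)) :=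
        mul_le_mul (abs_R_le a b) h (abs_nonneg _) (by positivity)
    _ = 4 * δ ^ 2 * ((‖a‖ * ‖b‖) * (‖a‖ / ‖b‖ + ‖b‖ / ‖a‖)) := by ring
    _ = _ := by rw [h2]

lemma D_eq (a b c : ℂ) : D a b c =
    ‖a‖ ^ 2 + 2 * ‖b‖ ^ 2 + ‖c‖ ^ 2 - 2 * √2 * R a b - 2 * √2 * R b c + 2 * R a c := by
  have hs : (√2 : ℝ) * √2 = 2 := mul_self_sqrt (by norm_num)
  simp only [D, normsq, R_eq, Complex.add_re, Complex.add_im, Complex.sub_re, Complex.sub_im,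
    Complex.mul_re, Complex.mul_im, Complex.ofReal_re, Complex.ofReal_im]
  linear_combination (b.re ^ 2 + b.im ^ 2) * hs

section Cyc

variable {ι : Type} [Fintype ι] (σ : Equiv.Perm ι)

lemma sum_shift (f : ι → ℝ) : ∑ k, f (σ k) = ∑ k, f k := Equiv.sum_comp σ f

lemma A_bound {M : ℝ} (hM : ∀ a b c d e : ℂ,
    F a b + F b c + F c d + F d e ≤
      √2 * (17 / 100) * (‖a‖ ^ 2 + ‖b‖ ^ 2 + ‖c‖ ^ 2 + ‖d‖ ^ 2) +
      1 / 1000 * (‖a‖ ^ 2 + ‖b‖ ^ 2 + ‖c‖ ^ 2 + ‖d‖ ^ 2 + ‖e‖ ^ 2) +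
      M * (D a b c + D b c d + D c d e)) (hM0 : 0 ≤ M) (h : ι → ℂ) :
    ∑ k, F (h k) (h (σ k)) ≤ 121 / 500 * ∑ k, ‖h k‖ ^ 2 +
      M * ∑ k, D (h k) (h (σ k)) (h (σ (σ k))) := by
  have key := Finset.sum_le_sum (s := univ) fun k _ =>
    hM (h k) (h (σ k)) (h (σ (σ k))) (h (σ (σ (σ k)))) (h (σ (σ (σ (σ k)))))
  simp only [sum_add_distrib, ← mul_sum] at key
  have n1 := sum_shift σ (fun k => ‖h k‖ ^ 2)
  have n2 := sum_shift σ (fun k => ‖h (σ k)‖ ^ 2)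
  have n3 := sum_shift σ (fun k => ‖h (σ (σ k))‖ ^ 2)
  have n4 := sum_shift σ (fun k => ‖h (σ (σ (σ k)))‖ ^ 2)
  have f1 := sum_shift σ (fun k => F (h k) (h (σ k)))
  have f2 := sum_shift σ (fun k => F (h (σ k)) (h (σ (σ k))))
  have f3 := sum_shift σ (fun k => F (h (σ (σ k))) (h (σ (σ (σ k)))))
  have d1 := sum_shift σ (fun k => D (h k) (h (σ k)) (h (σ (σ k))))
  have d2 := sum_shift σ (fun k => D (h (σ k)) (h (σ (σ k))) (h (σ (σ (σ k)))))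
  rw [n4, n3, n2, n1, f3, f2, f1, d2, d1] at key
  have hS : 0 ≤ ∑ k, ‖h k‖ ^ 2 := sum_nonneg fun k _ => sq_nonneg _
  have hD : 0 ≤ ∑ k, D (h k) (h (σ k)) (h (σ (σ k))) := sum_nonneg fun k _ => sq_nonneg _
  have hs : √2 ≤ 1415 / 1000 := by
    rw [sqrt_le_iff]; norm_num
  have h1 := mul_le_mul_of_nonneg_right hs hS
  have h2 := mul_nonneg hM0 hD
  nlinarith

lemma form_bound {M : ℝ} (hM0 : 0 ≤ M)
    (h : ι → ℂ) (hA : ∑ k, F (h k) (h (σ k)) ≤ 121 / 500 * ∑ k, ‖h k‖ ^ 2 +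
      M * ∑ k, D (h k) (h (σ k)) (h (σ (σ k))))
    {δ : ℝ} (h0 : 0 ≤ δ) (h1 : δ ≤ 1) :
    (1 + 4 * √2 * M * δ) * ∑ k, E δ (h (σ k)) (h k) +
      (4 * √2 * M * δ - 1) * ∑ k, E δ (h k) (h (σ k)) +
      (-(4 * M * δ)) * ∑ k, E δ (h k) (h (σ (σ k))) ≤
    (8 * M * δ + 121 / 250 * δ + δ ^ 2 * (16 + 136 * M)) * ∑ k, ‖h k‖ ^ 2 := by
  set S := ∑ k, ‖h k‖ ^ 2 with hS
  have n1 : ∑ k, ‖h (σ k)‖ ^ 2 = S := sum_shift σ (fun k => ‖h k‖ ^ 2)
  have n2 : ∑ k, ‖h (σ (σ k))‖ ^ 2 = S := (sum_shift σ (fun k => ‖h (σ k)‖ ^ 2)).trans n1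
  set A := ∑ k, F (h k) (h (σ k)) with hAdef
  set R1 := ∑ k, R (h k) (h (σ k)) with hR1
  set R2 := ∑ k, R (h k) (h (σ (σ k))) with hR2
  have r1 : ∑ k, R (h (σ k)) (h (σ (σ k))) = R1 := sum_shift σ (fun k => R (h k) (h (σ k)))
  have hD : ∑ k, D (h k) (h (σ k)) (h (σ (σ k))) = 4 * S - 4 * √2 * R1 + 2 * R2 := by
    simp only [D_eq, sum_add_distrib, sum_sub_distrib, ← mul_sum]
    rw [n1, n2, r1]
    ring
  have e1 : ∑ k, E δ (h (σ k)) (h k) ≤ R1 + δ * A + 8 * δ ^ 2 * S := by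
    have := Finset.sum_le_sum (s := univ) fun k _ =>
      (abs_le.1 (E_err h0 h1 (h (σ k)) (h k))).2
    simp only [sum_add_distrib, sum_sub_distrib, ← mul_sum, R_comm (h (σ _)) (h _)] at this
    rw [n1] at this
    linarith
  have e2 : ∑ k, E δ (h k) (h (σ k)) ≤ R1 - δ * A + 8 * δ ^ 2 * S := by
    have := Finset.sum_le_sum (s := univ) fun k _ =>
      (abs_le.1 (E_err h0 h1 (h k) (h (σ k)))).2
    simp only [sum_add_distrib, sum_sub_distrib, ← mul_sum, F_swap (h _) (h (σ _)),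
      sum_neg_distrib] at this
    rw [n1] at this
    linarith
  have e3 : R1 - δ * A - 8 * δ ^ 2 * S ≤ ∑ k, E δ (h k) (h (σ k)) := by
    have := Finset.sum_le_sum (s := univ) fun k _ =>
      (abs_le.1 (E_err h0 h1 (h k) (h (σ k)))).1
    simp only [sum_add_distrib, sum_sub_distrib, ← mul_sum, F_swap (h _) (h (σ _)),
      sum_neg_distrib] at this
    rw [n1] at this
    linarith
  have e4 : R2 - 2 * δ * S - 8 * δ ^ 2 * S ≤ ∑ k, E δ (h k) (h (σ (σ k))) := by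
    have := Finset.sum_le_sum (s := univ) fun k _ =>
      (abs_le.1 (E_err h0 h1 (h k) (h (σ (σ k))))).1
    simp only [sum_add_distrib, sum_sub_distrib, ← mul_sum, sum_neg_distrib] at this
    rw [n2] at this
    have h3 := Finset.sum_le_sum (s := univ) fun k _ =>
      (abs_le.1 (abs_F_le (h (σ (σ k))) (h k))).1
    simp only [sum_add_distrib, sum_neg_distrib] at h3
    rw [n2] at h3
    have h4 := mul_le_mul_of_nonneg_left h3 h0
    linarith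
  have hS0 : 0 ≤ S := sum_nonneg fun k _ => sq_nonneg _
  have hs0 : (0 : ℝ) ≤ √2 := sqrt_nonneg _
  have hs : √2 ≤ 3 / 2 := by
    rw [sqrt_le_iff]; norm_num
  set s := 4 * √2 * M * δ with hsdef
  have s0 : 0 ≤ s := by positivity
  have s1 : s ≤ 6 * M := by
    have : √2 * M * δ ≤ 3 / 2 * M * 1 :=
      mul_le_mul (mul_le_mul_of_nonneg_right hs hM0) h1 h0 (by positivity)
    linarith
  have K0 : 0 ≤ 4 * M * δ := by positivity
  have t1 := mul_le_mul_of_nonneg_left e1 (show 0 ≤ 1 + s by linarith)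
  have t2 := mul_le_mul_of_nonneg_left e2 s0
  have t4 := mul_le_mul_of_nonneg_left e4 K0
  rw [hD] at hA
  have t5 := mul_le_mul_of_nonneg_left hA (show 0 ≤ 2 * δ by linarith)
  have t6 : s * (δ ^ 2 * S) ≤ 6 * M * (δ ^ 2 * S) := mul_le_mul_of_nonneg_right s1 (by positivity)
  have t7 : δ * (M * (δ ^ 2 * S)) ≤ 1 * (M * (δ ^ 2 * S)) :=
    mul_le_mul_of_nonneg_right h1 (by positivity)
  have t8 : s * R1 = 4 * √2 * M * δ * R1 := by rw [hsdef]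
  nlinarith

end Cyc

end Pool.Agent.Lib.MP_a13136_an
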