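import Pool.Agent.Lib.MP_a13136_an.Main

namespace Pool.Agent.Lib.MP_a13136_an

open Real Finset Polynomial

theorem counterexample_near : ∃ p₀ : ℝ, 1 ≤ p₀ ∧ p₀ < 2 ∧ ∀ p : ℝ, p₀ < p → p < 2 →
    ∃ P : ℂ[X], P.natDegree ≤ 3 ∧ ∃ r : ℝ, 0 ≤ r ∧
    ∃ x : Fin 2 → ℂ, r ^ p * (‖x 0‖ ^ p + ‖x 1‖ ^ p) <
      ‖(Matrix.mulVec (aeval ((((2:ℝ) ^ (-1 / p) : ℝ) : ℂ) • !![(1:ℂ), -1; 1, 1]) P) x) 0‖ ^ p
      + ‖(Matrix.mulVec (aeval ((((2:ℝ) ^ (-1 / p) : ℝ) : ℂ) • !![(1:ℂ), -1; 1, 1]) P) x) 1‖ ^ p ∧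
    ∀ N : ℕ, ∀ y : ℕ → ℂ, (∀ j : ℕ, N ≤ j → y j = 0) →
      ∑ n ∈ range (N + P.natDegree + 1), ‖∑ k ∈ range (n + 1), P.coeff k * y (n - k)‖ ^ p ≤
      r ^ p * (∑ j ∈ range N, ‖y j‖ ^ p) := by
  obtain ⟨M, hM0, hM⟩ := window
  set δ₀ : ℝ := 1 / (200 * (16 + 136 * M)) with hδ₀
  have hδ₀0 : 0 < δ₀ := by positivity
  have hδ₀M : δ₀ * (16 + 136 * M) = 1 / 200 := by rw [hδ₀]; field_simp
  have hδ₀1 : δ₀ < 1 := by nlinarith
  refine ⟨2 / (1 + δ₀), by rw [le_div_iff₀ (by linarith)]; linarith,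
    by rw [div_lt_iff₀ (by linarith)]; linarith, fun p hp0 hp2 => ?_⟩
  have hp1 : 1 < p := lt_of_le_of_lt (by rw [le_div_iff₀ (by linarith)]; linarith) hp0
  set δ : ℝ := 2 / p - 1 with hδ
  have hpδ : p * (1 + δ) = 2 := by rw [hδ]; field_simp; ring
  have hδ0 : 0 < δ := by
    rw [hδ, sub_pos, lt_div_iff₀ (by linarith)]; linarith
  have hδδ₀ : δ < δ₀ := by
    rw [div_lt_iff₀ (by linarith)] at hp0
    nlinarith
  have hδM : δ * (16 + 136 * M) ≤ 1 / 200 := by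
    rw [← hδ₀M]; exact mul_le_mul_of_nonneg_right hδδ₀.le (by positivity)
  have hδ1 : δ < 1 := by linarith
  have hpdef : p = 2 / (1 + δ) := by rw [eq_div_iff (by linarith)]; exact hpδ
  clear_value δ
  set s : ℝ := 4 * √2 * M * δ with hs
  set μ : ℝ := 8 * M * δ + 121 / 250 * δ + δ ^ 2 * (16 + 136 * M) with hμ
  set t : ℝ := (2 : ℝ) ^ (-1 / p) with ht
  have ht0 : 0 < t := by positivity
  have htp : t ^ p = 1 / 2 := by
    rw [ht, ← rpow_mul (by norm_num), div_mul_cancel₀ _ (by linarith), rpow_neg_one]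
    norm_num
  set cv : ℝ := (1 + s) / (2 * t) + (s - 1) * t with hcv
  have hsq : (√2 : ℝ) * √2 = 2 := mul_self_sqrt (by norm_num)
  have hsq0 : (0 : ℝ) < √2 := by positivity
  have hs0 : 0 ≤ s := by positivity
  have hμ0 : 0 < μ := by positivity
  have hgap : μ < cv := by
    set x : ℝ := δ * log 2 / 2 with hx
    have hl := log_two_gt_d9
    have hx0 : 0 ≤ x := by positivity
    have e1 : t = exp (-x) / √2 := by
      have h1 : -1 / p = -(1 + δ) / 2 := by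
        rw [div_eq_div_iff (by linarith) (by norm_num)]; linarith
      rw [ht, h1, rpow_def_of_pos (by norm_num), sqrt_eq_rpow, rpow_def_of_pos (by norm_num),
        ← exp_sub]
      congr 1
      rw [hx]; ring
    have e2 : exp x * exp (-x) = 1 := by rw [← exp_add]; simp
    have e3 : 1 / (2 * t) = exp x / √2 := by
      rw [e1, div_eq_div_iff (by positivity) hsq0.ne']
      field_simp
      nlinarith
    have e4 : cv * √2 = (1 + s) * exp x + (s - 1) * exp (-x) := by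
      rw [hcv, div_eq_mul_one_div (1 + s), e3, e1]
      field_simp
    have e5 : x ≤ (exp x - exp (-x)) / 2 := by
      rw [← sinh_eq]; exact self_le_sinh_iff.2 hx0
    have e6 : 2 ≤ exp x + exp (-x) := by
      have := add_one_le_exp x
      have := add_one_le_exp (-x)
      linarith
    have e7 : s * 2 ≤ s * (exp x + exp (-x)) := mul_le_mul_of_nonneg_left e6 hs0
    have e8 : μ ≤ 8 * M * δ + 489 / 1000 * δ := by
      rw [hμ, sq, mul_assoc δ δ]
      have := mul_le_mul_of_nonneg_left hδM hδ0.le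
      linarith
    have e9 : √2 ≤ 1415 / 1000 := by
      rw [sqrt_le_iff]; norm_num
    have e10 : μ * √2 ≤ 2 * s + 489 / 1000 * (δ * √2) := by
      refine le_trans (mul_le_mul_of_nonneg_right e8 hsq0.le) (le_of_eq ?_)
      rw [hs]; ring
    have e11 : δ * √2 ≤ δ * (1415 / 1000) := mul_le_mul_of_nonneg_left e9 hδ0.le
    have e12 : δ * 0.6931471803 ≤ δ * log 2 := mul_le_mul_of_nonneg_left hl.le hδ0.le
    refine lt_of_mul_lt_mul_right ?_ hsq0.le
    refine lt_of_le_of_lt e10 ?_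
    rw [e4]
    norm_num at e12
    nlinarith
  set C : ℝ := |1 + s| + |s - 1| + |-(4 * M * δ)| with hC
  obtain ⟨ε, hε0, hε1, hε2⟩ : ∃ ε : ℝ, 0 < ε ∧ ε * μ < 1 ∧ ε * (C ^ 2 + cv * μ) < cv - μ := by
    have hc : ContinuousAt (fun ε : ℝ => ε * μ) 0 := by fun_prop
    have hc' : ContinuousAt (fun ε : ℝ => ε * (C ^ 2 + cv * μ)) 0 := by fun_prop
    have a1 : ∀ᶠ ε in nhds (0 : ℝ), ε * μ < 1 := hc.eventually_lt continuousAt_const (by simp)
    have a2 : ∀ᶠ ε in nhds (0 : ℝ), ε * (C ^ 2 + cv * μ) < cv - μ :=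
      hc'.eventually_lt continuousAt_const (by simpa using hgap)
    have a3 : ∀ᶠ ε in nhdsWithin (0 : ℝ) (Set.Ioi 0), 0 < ε ∧ ε * μ < 1 ∧
        ε * (C ^ 2 + cv * μ) < cv - μ :=
      Filter.Eventually.and self_mem_nhdsWithin ((a1.and a2).filter_mono nhdsWithin_le_nhds)
    exact a3.exists
  set r : ℝ := (1 + ε ^ 2 * C ^ 2) / (1 - ε * μ) with hr
  have hd : 0 < 1 - ε * μ := by linarith
  have hr0 : 0 ≤ r := by positivity
  refine ⟨poly (ε * (1 + s)) (ε * (s - 1)) (ε * -(4 * M * δ)), poly_natDegree _ _ _, r, hr0,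
    ![1, 0], ?_, ?_⟩
  · obtain ⟨m0, m1⟩ := mat_apply t (ε * (1 + s)) (ε * (s - 1)) (ε * -(4 * M * δ))
    rw [m0, m1, Complex.norm_real, Complex.norm_real, Real.norm_eq_abs, Real.norm_eq_abs]
    simp only [Matrix.cons_val_zero, norm_one, one_rpow, Matrix.cons_val_one,
      norm_zero, zero_rpow (show p ≠ 0 by linarith), add_zero, mul_one]
    refine two_point hp1 hr0 ht0 htp ?_
    have h1 : r < 1 + ε * cv := by
      rw [hr, div_lt_iff₀ hd]
      nlinarith [mul_lt_mul_of_pos_left hε2 hε0]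
    have h2 : (1 + ε * cv) * (2 * t) = 2 * t + ε * (1 + s) + 2 * (ε * (s - 1)) * t ^ 2 := by
      rw [hcv]; field_simp; ring
    have h3 := mul_lt_mul_of_pos_right h1 (show 0 < 2 * t by linarith)
    linarith
  · intro N y hy
    refine shift_bound hp1 hr0 (fun ι _ σ y => ?_) N y hy
    have := op_bound hM hM0 hp1 hpδ hδ0.le hδ1.le σ (a := 1 + s) (b := s - 1)
      (c := -(4 * M * δ)) (μ := μ) rfl rfl rfl rfl hε0.le y
    rw [hr, div_mul_eq_mul_div, le_div_iff₀ hd, mul_comm]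
    exact this


open scoped ENNReal

section Ops

variable (p : ℝ≥0∞) [Fact (1 ≤ p)]

/-- right shift on sequences -/
def sh (y : ℕ → ℂ) : ℕ → ℂ
  | 0 => 0
  | n + 1 => y n

lemma exists_shift (hp : 0 < p.toReal) :
    ∃ S : lp (fun _ : ℕ => ℂ) p →L[ℂ] lp (fun _ : ℕ => ℂ) p,
      ∀ y, S y 0 = 0 ∧ ∀ n, S y (n + 1) = y n := by
  have hmem : ∀ y : lp (fun _ : ℕ => ℂ) p, Memℓp (E := fun _ : ℕ => ℂ) (sh y) p := by
    intro y
    rw [memℓp_gen_iff hp, ← summable_nat_add_iff 1]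
    exact (lp.memℓp y).summable hp
  let L : lp (fun _ : ℕ => ℂ) p →ₗ[ℂ] lp (fun _ : ℕ => ℂ) p :=
    { toFun := fun y => ⟨sh y, hmem y⟩
      map_add' := fun y z => by
        ext n
        rcases n with _ | n
        · change (0 : ℂ) = 0 + 0
          simp
        · rfl
      map_smul' := fun c y => by
        ext n
        rcases n with _ | n
        · change (0 : ℂ) = c • 0
          simp
        · rfl }
  refine ⟨L.mkContinuous 1 fun y => ?_, fun y => ⟨rfl, fun n => rfl⟩⟩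
  rw [one_mul]
  refine lp.norm_le_of_tsum_le hp (norm_nonneg _) ?_
  rw [((lp.memℓp (L y)).summable hp).tsum_eq_zero_add, lp.norm_rpow_eq_tsum hp]
  have h0 : ‖L y 0‖ ^ p.toReal = 0 := by
    change ‖(0 : ℂ)‖ ^ p.toReal = 0
    rw [norm_zero, zero_rpow hp.ne']
  rw [h0, zero_add]
  exact le_of_eq rfl

variable {p}

lemma pow_shift {S : lp (fun _ : ℕ => ℂ) p →L[ℂ] lp (fun _ : ℕ => ℂ) p}
    (hS : ∀ y, S y 0 = 0 ∧ ∀ n, S y (n + 1) = y n) (k : ℕ) (y : lp (fun _ : ℕ => ℂ) p) (n : ℕ) :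
    (S ^ k) y n = if k ≤ n then y (n - k) else 0 := by
  induction k generalizing n with
  | zero => simp
  | succ k ih =>
    rw [pow_succ', ContinuousLinearMap.mul_apply]
    rcases n with _ | n
    · rw [(hS _).1]; simp
    · rw [(hS _).2, ih]; simp

lemma aeval_shift {S : lp (fun _ : ℕ => ℂ) p →L[ℂ] lp (fun _ : ℕ => ℂ) p}
    (hS : ∀ y, S y 0 = 0 ∧ ∀ n, S y (n + 1) = y n) (P : ℂ[X]) (y : lp (fun _ : ℕ => ℂ) p)
    (n : ℕ) : aeval S P y n = ∑ k ∈ range (n + 1), P.coeff k * y (n - k) := by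
  induction P using Polynomial.induction_on' with
  | add P Q hP hQ =>
    rw [map_add, ContinuousLinearMap.add_apply, lp.coeFn_add, Pi.add_apply, hP, hQ,
      ← sum_add_distrib]
    exact sum_congr rfl fun k _ => by rw [coeff_add, add_mul]
  | monomial k a =>
    rw [aeval_monomial, Algebra.algebraMap_eq_smul_one, smul_mul_assoc, one_mul,
      ContinuousLinearMap.smul_apply, lp.coeFn_smul, Pi.smul_apply, pow_shift hS]
    simp only [coeff_monomial, ite_mul, zero_mul, sum_ite_eq, mem_range, Nat.lt_add_one_iff,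
      smul_eq_mul, mul_ite, mul_zero]

lemma norm_aeval_shift_le (hp : 0 < p.toReal)
    {S : lp (fun _ : ℕ => ℂ) p →L[ℂ] lp (fun _ : ℕ => ℂ) p}
    (hS : ∀ y, S y 0 = 0 ∧ ∀ n, S y (n + 1) = y n) (P : ℂ[X]) {r : ℝ} (hr : 0 ≤ r)
    (h : ∀ N : ℕ, ∀ y : ℕ → ℂ, (∀ j : ℕ, N ≤ j → y j = 0) →
      ∑ n ∈ range (N + P.natDegree + 1),
        ‖∑ k ∈ range (n + 1), P.coeff k * y (n - k)‖ ^ p.toReal ≤
      r ^ p.toReal * (∑ j ∈ range N, ‖y j‖ ^ p.toReal)) : ‖aeval S P‖ ≤ r := by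
  refine ContinuousLinearMap.opNorm_le_bound _ hr fun y => ?_
  refine lp.norm_le_of_forall_sum_le hp (by positivity) fun s => ?_
  obtain ⟨N, hN⟩ : ∃ N, s ⊆ range N := s.exists_nat_subset_range
  have h1 := h N (fun j => if j < N then y j else 0) (fun j hj => if_neg (by omega))
  have h2 : ∑ j ∈ range N, ‖(if j < N then y j else 0 : ℂ)‖ ^ p.toReal ≤ ‖y‖ ^ p.toReal := by
    refine le_trans (le_of_eq ?_) (lp.sum_rpow_le_norm_rpow hp y (range N))
    exact sum_congr rfl fun j hj => by rw [if_pos (mem_range.1 hj)]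
  rw [mul_rpow hr (norm_nonneg _)]
  refine le_trans ?_ (h1.trans (mul_le_mul_of_nonneg_left h2 (rpow_nonneg hr _)))
  refine le_trans (le_of_eq ?_) (sum_le_sum_of_subset_of_nonneg
    (hN.trans (range_subset_range.2 (by omega))) fun _ _ _ => rpow_nonneg (norm_nonneg _) _)
  refine sum_congr rfl fun n hn => ?_
  have hn' := mem_range.1 (hN hn)
  rw [aeval_shift hS]
  congr 2
  exact sum_congr rfl fun k _ => by rw [if_pos (by omega)]

lemma aeval_mat (A : Matrix (Fin 2) (Fin 2) ℂ)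
    {T : PiLp p (fun _ : Fin 2 => ℂ) →L[ℂ] PiLp p (fun _ : Fin 2 => ℂ)}
    (hT : ∀ x, (T x).ofLp = A.mulVec x.ofLp) (P : ℂ[X]) (x : PiLp p (fun _ : Fin 2 => ℂ)) :
    (aeval T P x).ofLp = (aeval A P).mulVec x.ofLp := by
  have hpow : ∀ (k : ℕ) (x : PiLp p (fun _ : Fin 2 => ℂ)),
      ((T ^ k) x).ofLp = (A ^ k).mulVec x.ofLp := by
    intro k
    induction k with
    | zero => intro x; simp
    | succ k ih =>
      intro x
      rw [pow_succ', ContinuousLinearMap.mul_apply, hT, ih, Matrix.mulVec_mulVec, ← pow_succ']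
  induction P using Polynomial.induction_on' with
  | add P Q hP hQ =>
    rw [map_add, map_add, ContinuousLinearMap.add_apply, WithLp.ofLp_add, hP, hQ,
      Matrix.add_mulVec]
  | monomial k a =>
    rw [aeval_monomial, aeval_monomial, Algebra.algebraMap_eq_smul_one,
      Algebra.algebraMap_eq_smul_one, smul_mul_assoc, smul_mul_assoc, one_mul, one_mul,
      ContinuousLinearMap.smul_apply, WithLp.ofLp_smul, hpow, Matrix.smul_mulVec]

end Ops

theorem near_two : ∃ p₀ : ℝ≥0∞, 1 ≤ p₀ ∧ p₀ < 2 ∧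
    ∀ (p : ℝ≥0∞) [Fact (1 ≤ p)], p₀ < p → p < 2 →
      ∃ (T : PiLp p (fun _ : Fin 2 => ℂ) →L[ℂ] PiLp p (fun _ : Fin 2 => ℂ))
        (S : lp (fun _ : ℕ => ℂ) p →L[ℂ] lp (fun _ : ℕ => ℂ) p) (φ : ℂ[X]),
        (∀ x, T x 0 = ((2 : ℝ) ^ (-1 / p.toReal) : ℝ) * (x 0 - x 1) ∧
          T x 1 = ((2 : ℝ) ^ (-1 / p.toReal) : ℝ) * (x 0 + x 1)) ∧
        (∀ y, S y 0 = 0 ∧ ∀ n, S y (n + 1) = y n) ∧
        φ.natDegree ≤ 3 ∧ ‖aeval S φ‖ < ‖aeval T φ‖ := by
  obtain ⟨p₀, h1, h2, h⟩ := counterexample_near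
  refine ⟨ENNReal.ofReal p₀, ?_, ?_, fun p _ hp0 hp2 => ?_⟩
  · rw [← ENNReal.ofReal_one]; exact ENNReal.ofReal_le_ofReal h1
  · rw [← ENNReal.ofReal_ofNat]; exact (ENNReal.ofReal_lt_ofReal_iff (by norm_num)).2 h2
  have hpt : p ≠ ⊤ := ne_top_of_lt hp2
  have hq0 : p₀ < p.toReal := (ENNReal.ofReal_lt_iff_lt_toReal (by linarith) hpt).1 hp0
  have hq2 : p.toReal < 2 := by
    have := (ENNReal.toReal_lt_toReal hpt (by norm_num)).2 hp2
    simpa using this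
  have hp : 0 < p.toReal := by linarith
  obtain ⟨P, hP, r, hr, x, hx, hy⟩ := h p.toReal hq0 hq2
  obtain ⟨S, hS⟩ := exists_shift p hp
  set A : Matrix (Fin 2) (Fin 2) ℂ :=
    (((2:ℝ) ^ (-1 / p.toReal) : ℝ) : ℂ) • !![(1:ℂ), -1; 1, 1] with hA
  let T : PiLp p (fun _ : Fin 2 => ℂ) →L[ℂ] PiLp p (fun _ : Fin 2 => ℂ) :=
    LinearMap.toContinuousLinearMap (Matrix.toLpLin p p A)
  have hT : ∀ x, (T x).ofLp = A.mulVec x.ofLp := fun x => rfl
  refine ⟨T, S, P, fun x => ?_, hS, hP, ?_⟩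
  · constructor
    · change (T x).ofLp 0 = _
      rw [hT, hA]
      simp [Matrix.mulVec, dotProduct, Fin.sum_univ_two]
      ring
    · change (T x).ofLp 1 = _
      rw [hT, hA]
      simp [Matrix.mulVec, dotProduct, Fin.sum_univ_two]
      ring
  · refine lt_of_le_of_lt (norm_aeval_shift_le hp hS P hr hy) ?_
    by_contra hcon
    rw [not_lt] at hcon
    set X : PiLp p (fun _ : Fin 2 => ℂ) := WithLp.toLp p x with hX
    have h3 : ‖aeval T P X‖ ≤ r * ‖X‖ :=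
      ((aeval T P).le_opNorm X).trans (mul_le_mul_of_nonneg_right hcon (norm_nonneg _))
    have h4 := rpow_le_rpow (norm_nonneg _) h3 hp.le
    have hn : ∀ Y : PiLp p (fun _ : Fin 2 => ℂ),
        ‖Y‖ ^ p.toReal = ‖Y.ofLp 0‖ ^ p.toReal + ‖Y.ofLp 1‖ ^ p.toReal := by
      intro Y
      rw [PiLp.norm_eq_sum hp, ← rpow_mul (by positivity), one_div_mul_cancel hp.ne', rpow_one,
        Fin.sum_univ_two]
    rw [mul_rpow hr (norm_nonneg _), hn, hn, aeval_mat A hT] at h4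
    exact absurd hx (not_lt.2 h4)

end Pool.Agent.Lib.MP_a13136_an
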