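import Pool.Agent.Lib.MP_a13136_an.Norm

namespace Pool.Agent.Lib.MP_a13136_an

open Real Finset Polynomial

/-- the cubic polynomial -/
noncomputable def poly (a b c : ℝ) : ℂ[X] :=
  monomial 0 (a : ℂ) + monomial 1 1 + monomial 2 (b : ℂ) + monomial 3 (c : ℂ)

lemma poly_natDegree (a b c : ℝ) : (poly a b c).natDegree ≤ 3 := by
  unfold poly
  compute_degree

lemma conv_poly (a b c : ℝ) (y : ℕ → ℂ) (n : ℕ) :
    ∑ k ∈ range (n + 1), (poly a b c).coeff k * y (n - k) =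
      a * y n + (if 1 ≤ n then y (n - 1) else 0) + b * (if 2 ≤ n then y (n - 2) else 0) +
        c * (if 3 ≤ n then y (n - 3) else 0) := by
  simp only [poly, coeff_add, coeff_monomial, add_mul, sum_add_distrib, ite_mul, zero_mul,
    sum_ite_eq, mem_range, one_mul, Nat.lt_add_one_iff, mul_ite, mul_zero]
  simp

lemma shift_val {N : ℕ} (k : Fin (N + 4)) :
    (((Equiv.addRight (1 : Fin (N + 4))).symm k : Fin (N + 4)) : ℕ) =
      if (k : ℕ) = 0 then N + 3 else k - 1 := by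
  have : (Equiv.addRight (1 : Fin (N + 4))).symm k = k - 1 := by
    simp [sub_eq_add_neg]
  rw [this, Fin.coe_sub_one]
  by_cases hk : k = 0
  · rw [if_pos hk, if_pos (by rw [hk]; rfl)]
  · rw [if_neg hk, if_neg (show ¬ (k : ℕ) = 0 from fun h => hk (Fin.ext h))]

lemma shift_bound {p r ε a b c : ℝ} (hp : 1 < p) (hr : 0 ≤ r)
    (h : ∀ (ι : Type) [Fintype ι] (σ : Equiv.Perm ι) (y : ι → ℂ),
      Np p (fun k => y k + ε * psi σ a b c y k) ≤ r * Np p y)
    (N : ℕ) (y : ℕ → ℂ) (hy : ∀ j, N ≤ j → y j = 0) :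
    ∑ n ∈ range (N + (poly (ε * a) (ε * b) (ε * c)).natDegree + 1),
      ‖∑ k ∈ range (n + 1), (poly (ε * a) (ε * b) (ε * c)).coeff k * y (n - k)‖ ^ p ≤
      r ^ p * ∑ j ∈ range N, ‖y j‖ ^ p := by
  set σ := Equiv.addRight (1 : Fin (N + 4)) with hσ
  have h1 := h (Fin (N + 4)) σ (fun k => y k)
  have h2 := rpow_le_rpow (Np_nonneg _ _) h1 (show 0 ≤ p by linarith)
  rw [mul_rpow hr (Np_nonneg _ _), Np_rpow hp, Np_rpow hp,
    ← sum_shift σ.symm (fun k => ‖y k + ε * psi σ a b c (fun k => y k) k‖ ^ p)] at h2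
  have h3 : ∑ k : Fin (N + 4), ‖y k‖ ^ p = ∑ j ∈ range N, ‖y j‖ ^ p := by
    rw [← Finset.sum_range (fun j => ‖y j‖ ^ p)]
    symm
    refine sum_subset (range_subset_range.2 (by omega)) fun j _ hj => ?_
    rw [hy j (by simpa using hj), norm_zero, zero_rpow (by linarith)]
  rw [h3] at h2
  refine le_trans ?_ h2
  have hd := poly_natDegree (ε * a) (ε * b) (ε * c)
  refine le_trans (sum_le_sum_of_subset_of_nonneg (t := range (N + 4))
    (range_subset_range.2 (by omega)) fun _ _ _ => rpow_nonneg (norm_nonneg _) _) (le_of_eq ?_)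
  rw [Finset.sum_range]
  refine sum_congr rfl fun k _ => ?_
  congr 2
  rw [conv_poly]
  simp only [psi, Equiv.apply_symm_apply, hσ, shift_val]
  have hk := k.2
  have z1 := hy (N + 3) (by omega)
  have z2 := hy (N + 2) (by omega)
  have z3 := hy (N + 1) (by omega)
  obtain ⟨k, hk'⟩ := k
  rcases k with _ | _ | _ | k
  · simp [z1, z2, z3]; ring
  · simp [z1, z2]; ring
  · simp [z1]; ring
  · simp; ring

lemma mat_apply (t a b c : ℝ) :
    (Matrix.mulVec (aeval ((t : ℂ) • !![(1:ℂ), -1; 1, 1]) (poly a b c)) ![1, 0]) 0 =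
      ((a + t - 2 * c * t ^ 3 : ℝ) : ℂ) ∧
    (Matrix.mulVec (aeval ((t : ℂ) • !![(1:ℂ), -1; 1, 1]) (poly a b c)) ![1, 0]) 1 =
      ((t + 2 * b * t ^ 2 + 2 * c * t ^ 3 : ℝ) : ℂ) := by
  simp only [poly, map_add, aeval_monomial, Algebra.algebraMap_eq_smul_one]
  constructor <;>
  · simp [Matrix.mulVec, dotProduct, Fin.sum_univ_two, pow_succ, Matrix.one_apply]
    ring

lemma two_point {p r t u v : ℝ} (hp : 1 < p) (hr : 0 ≤ r) (ht : 0 < t) (htp : t ^ p = 1 / 2)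
    (h : r * (2 * t) < u + v) : r ^ p < |u| ^ p + |v| ^ p := by
  have h1 := (convexOn_rpow hp.le).2 (abs_nonneg u) (abs_nonneg v)
    (show (0 : ℝ) ≤ 1 / 2 by norm_num) (show (0 : ℝ) ≤ 1 / 2 by norm_num) (by norm_num)
  simp only [smul_eq_mul] at h1
  have h2 : r * t < 1 / 2 * |u| + 1 / 2 * |v| := by
    have := le_abs_self u
    have := le_abs_self v
    linarith
  have h3 := rpow_lt_rpow (by positivity) h2 (show 0 < p by linarith)
  rw [mul_rpow hr ht.le, htp] at h3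
  linarith

theorem counterexample : ∃ p : ℝ, 1 < p ∧ p < 2 ∧ ∃ P : ℂ[X], ∃ r : ℝ, 0 ≤ r ∧
    ∃ x : Fin 2 → ℂ, r ^ p * (‖x 0‖ ^ p + ‖x 1‖ ^ p) <
      ‖(Matrix.mulVec (aeval ((((2:ℝ) ^ (-1 / p) : ℝ) : ℂ) • !![(1:ℂ), -1; 1, 1]) P) x) 0‖ ^ p
      + ‖(Matrix.mulVec (aeval ((((2:ℝ) ^ (-1 / p) : ℝ) : ℂ) • !![(1:ℂ), -1; 1, 1]) P) x) 1‖ ^ p ∧
    ∀ N : ℕ, ∀ y : ℕ → ℂ, (∀ j : ℕ, N ≤ j → y j = 0) →
      ∑ n ∈ range (N + P.natDegree + 1), ‖∑ k ∈ range (n + 1), P.coeff k * y (n - k)‖ ^ p ≤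
      r ^ p * (∑ j ∈ range N, ‖y j‖ ^ p) := by
  obtain ⟨M, hM0, hM⟩ := window
  set δ : ℝ := 1 / (200 * (16 + 136 * M)) with hδ
  have hδ0 : 0 < δ := by positivity
  have hδM : δ * (16 + 136 * M) = 1 / 200 := by rw [hδ]; field_simp
  have hδ1 : δ < 1 := by nlinarith
  set p : ℝ := 2 / (1 + δ) with hpdef
  have hpδ : p * (1 + δ) = 2 := by rw [hpdef]; field_simp
  have hp1 : 1 < p := by rw [hpdef, lt_div_iff₀ (by linarith)]; linarith
  have hp2 : p < 2 := by rw [hpdef, div_lt_iff₀ (by linarith)]; linarith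
  set s : ℝ := 4 * √2 * M * δ with hs
  set μ : ℝ := 8 * M * δ + 121 / 250 * δ + δ ^ 2 * (16 + 136 * M) with hμ
  set t : ℝ := (2 : ℝ) ^ (-1 / p) with ht
  have ht0 : 0 < t := by positivity
  have htp : t ^ p = 1 / 2 := by
    rw [ht, ← rpow_mul (by norm_num), div_mul_cancel₀ _ (by linarith), rpow_neg_one]
    norm_num
  set cv : ℝ := (1 + s) / (2 * t) + (s - 1) * t with hcv
  have hsq : (√2 : ℝ) * √2 = 2 := mul_self_sqrt (by norm_num)
  have hsq0 : (0 : ℝ) < √2 := by positivity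
  have hs0 : 0 ≤ s := by positivity
  have hμ0 : 0 < μ := by positivity
  have hgap : μ < cv := by
    set x : ℝ := δ * log 2 / 2 with hx
    have hl := log_two_gt_d9
    have hx0 : 0 ≤ x := by positivity
    have e1 : t = exp (-x) / √2 := by
      have h1 : -1 / p = -(1 + δ) / 2 := by
        rw [hpdef]; field_simp
      rw [ht, h1, rpow_def_of_pos (by norm_num), sqrt_eq_rpow, rpow_def_of_pos (by norm_num),
        ← exp_sub]
      congr 1
      rw [hx]; ring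
    have e2 : exp x * exp (-x) = 1 := by rw [← exp_add]; simp
    have e3 : 1 / (2 * t) = exp x / √2 := by
      rw [e1, div_eq_div_iff (by positivity) hsq0.ne']
      field_simp
      nlinarith
    have e4 : cv * √2 = (1 + s) * exp x + (s - 1) * exp (-x) := by
      rw [hcv, div_eq_mul_one_div (1 + s), e3, e1]
      field_simp
    have e5 : x ≤ (exp x - exp (-x)) / 2 := by
      rw [← sinh_eq]; exact self_le_sinh_iff.2 hx0
    have e6 : 2 ≤ exp x + exp (-x) := by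
      have := add_one_le_exp x
      have := add_one_le_exp (-x)
      linarith
    have e7 : s * 2 ≤ s * (exp x + exp (-x)) := mul_le_mul_of_nonneg_left e6 hs0
    have e8 : μ = 8 * M * δ + 489 / 1000 * δ := by
      rw [hμ, sq, mul_assoc δ δ, hδM]; ring
    have e9 : √2 ≤ 1415 / 1000 := by
      rw [sqrt_le_iff]; norm_num
    have e10 : μ * √2 = 2 * s + 489 / 1000 * (δ * √2) := by
      rw [e8, hs]; ring
    have e11 : δ * √2 ≤ δ * (1415 / 1000) := mul_le_mul_of_nonneg_left e9 hδ0.le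
    have e12 : δ * 0.6931471803 ≤ δ * log 2 := mul_le_mul_of_nonneg_left hl.le hδ0.le
    refine lt_of_mul_lt_mul_right ?_ hsq0.le
    rw [e4, e10]
    norm_num at e12
    nlinarith
  set C : ℝ := |1 + s| + |s - 1| + |-(4 * M * δ)| with hC
  obtain ⟨ε, hε0, hε1, hε2⟩ : ∃ ε : ℝ, 0 < ε ∧ ε * μ < 1 ∧ ε * (C ^ 2 + cv * μ) < cv - μ := by
    have hc : ContinuousAt (fun ε : ℝ => ε * μ) 0 := by fun_prop
    have hc' : ContinuousAt (fun ε : ℝ => ε * (C ^ 2 + cv * μ)) 0 := by fun_prop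
    have a1 : ∀ᶠ ε in nhds (0 : ℝ), ε * μ < 1 := hc.eventually_lt continuousAt_const (by simp)
    have a2 : ∀ᶠ ε in nhds (0 : ℝ), ε * (C ^ 2 + cv * μ) < cv - μ :=
      hc'.eventually_lt continuousAt_const (by simpa using hgap)
    have a3 : ∀ᶠ ε in nhdsWithin (0 : ℝ) (Set.Ioi 0), 0 < ε ∧ ε * μ < 1 ∧
        ε * (C ^ 2 + cv * μ) < cv - μ :=
      Filter.Eventually.and self_mem_nhdsWithin ((a1.and a2).filter_mono nhdsWithin_le_nhds)
    exact a3.exists
  set r : ℝ := (1 + ε ^ 2 * C ^ 2) / (1 - ε * μ) with hr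
  have hd : 0 < 1 - ε * μ := by linarith
  have hr0 : 0 ≤ r := by positivity
  refine ⟨p, hp1, hp2, poly (ε * (1 + s)) (ε * (s - 1)) (ε * -(4 * M * δ)), r, hr0, ![1, 0],
    ?_, ?_⟩
  · obtain ⟨m0, m1⟩ := mat_apply t (ε * (1 + s)) (ε * (s - 1)) (ε * -(4 * M * δ))
    rw [m0, m1, Complex.norm_real, Complex.norm_real, Real.norm_eq_abs, Real.norm_eq_abs]
    simp only [Matrix.cons_val_zero, norm_one, one_rpow, Matrix.cons_val_one,
      norm_zero, zero_rpow (show p ≠ 0 by linarith), add_zero, mul_one]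
    refine two_point hp1 hr0 ht0 htp ?_
    have h1 : r < 1 + ε * cv := by
      rw [hr, div_lt_iff₀ hd]
      nlinarith [mul_lt_mul_of_pos_left hε2 hε0]
    have h2 : (1 + ε * cv) * (2 * t) = 2 * t + ε * (1 + s) + 2 * (ε * (s - 1)) * t ^ 2 := by
      rw [hcv]; field_simp; ring
    have h3 := mul_lt_mul_of_pos_right h1 (show 0 < 2 * t by linarith)
    linarith
  · intro N y hy
    refine shift_bound hp1 hr0 (fun ι _ σ y => ?_) N y hy
    have := op_bound hM hM0 hp1 hpδ hδ0.le hδ1.le σ (a := 1 + s) (b := s - 1)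
      (c := -(4 * M * δ)) (μ := μ) rfl rfl rfl rfl hε0.le y
    rw [hr, div_mul_eq_mul_div, le_div_iff₀ hd, mul_comm]
    exact this

end Pool.Agent.Lib.MP_a13136_an
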