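import Pool.Agent.Lib.MP_a13136_an.Form

namespace Pool.Agent.Lib.MP_a13136_an

open Real Finset ComplexConjugate

section Cyc

variable {ι : Type} [Fintype ι]

/-- the `l^p` norm -/
noncomputable def Np (p : ℝ) (y : ι → ℂ) : ℝ := (∑ k, ‖y k‖ ^ p) ^ (1 / p)

lemma sum_nn (p : ℝ) (y : ι → ℂ) : 0 ≤ ∑ k, ‖y k‖ ^ p :=
  sum_nonneg fun _ _ => rpow_nonneg (norm_nonneg _) _

lemma Np_nonneg (p : ℝ) (y : ι → ℂ) : 0 ≤ Np p y := rpow_nonneg (sum_nn p y) _

lemma Np_rpow {p : ℝ} (hp : 1 < p) (y : ι → ℂ) : Np p y ^ p = ∑ k, ‖y k‖ ^ p := by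
  rw [Np, ← rpow_mul (sum_nn p y), one_div_mul_cancel (by linarith), rpow_one]

lemma Np_add {p : ℝ} (hp : 1 < p) (y z : ι → ℂ) :
    Np p (fun k => y k + z k) ≤ Np p y + Np p z := by
  refine le_trans ?_ (Lp_add_le_of_nonneg univ hp.le (fun k _ => norm_nonneg (y k))
    (fun k _ => norm_nonneg (z k)))
  refine rpow_le_rpow (sum_nn _ _) (sum_le_sum fun k _ => ?_) (by positivity)
  exact rpow_le_rpow (norm_nonneg _) (norm_add_le _ _) (by linarith)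

lemma Np_mul {p : ℝ} (hp : 1 < p) (c : ℝ) (y : ι → ℂ) :
    Np p (fun k => c * y k) = |c| * Np p y := by
  simp only [Np, norm_mul, Complex.norm_real, Real.norm_eq_abs]
  simp only [mul_rpow (abs_nonneg c) (norm_nonneg _), ← mul_sum]
  rw [mul_rpow (rpow_nonneg (abs_nonneg c) _) (sum_nn p y), ← rpow_mul (abs_nonneg c),
    mul_one_div_cancel (by linarith), rpow_one]

lemma Np_shift (p : ℝ) (σ : Equiv.Perm ι) (y : ι → ℂ) : Np p (fun k => y (σ k)) = Np p y := by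
  rw [Np, Np, sum_shift σ (fun k => ‖y k‖ ^ p)]

/-- the perturbation operator -/
noncomputable def psi (σ : Equiv.Perm ι) (a b c : ℝ) (y : ι → ℂ) (k : ι) : ℂ :=
  a * y (σ k) + b * y (σ.symm k) + c * y (σ.symm (σ.symm k))

lemma Np_psi {p : ℝ} (hp : 1 < p) (σ : Equiv.Perm ι) (a b c : ℝ) (y : ι → ℂ) :
    Np p (psi σ a b c y) ≤ (|a| + |b| + |c|) * Np p y := by
  have h1 := Np_add hp (fun k => a * y (σ k) + b * y (σ.symm k))
    (fun k => c * y (σ.symm (σ.symm k)))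
  have h2 := Np_add hp (fun k => a * y (σ k)) (fun k => b * y (σ.symm k))
  rw [Np_mul hp a (fun k => y (σ k)), Np_mul hp b (fun k => y (σ.symm k)), Np_shift,
    Np_shift] at h2
  rw [Np_mul hp c (fun k => y (σ.symm (σ.symm k))),
    Np_shift p σ.symm (fun k => y (σ.symm k)), Np_shift] at h1
  have : Np p (psi σ a b c y) = Np p (fun k => a * y (σ k) + b * y (σ.symm k) +
    c * y (σ.symm (σ.symm k))) := rfl
  linarith

/-- Mazur map to `l^2` -/
noncomputable def mz (p : ℝ) (a : ℂ) : ℂ := a * (exp ((p - 2) / 2 * log ‖a‖) : ℝ)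

lemma norm_mz (p : ℝ) (a : ℂ) : ‖mz p a‖ = ‖a‖ * exp ((p - 2) / 2 * log ‖a‖) := by
  rw [mz, norm_mul, Complex.norm_real, Real.norm_eq_abs, abs_of_pos (exp_pos _)]

lemma norm_mz_sq {p : ℝ} (hp : 1 < p) (a : ℂ) : ‖mz p a‖ ^ 2 = ‖a‖ ^ p := by
  rcases eq_or_ne a 0 with rfl | ha
  · simp [mz, zero_rpow (show p ≠ 0 by linarith)]
  have ha' : 0 < ‖a‖ := norm_pos_iff.2 ha
  rw [norm_mz, rpow_def_of_pos ha']
  nth_rewrite 1 [← exp_log ha']
  rw [← exp_add, sq, ← exp_add]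
  congr 1
  ring

lemma E_mz {p δ : ℝ} (hpδ : p * (1 + δ) = 2) (a b : ℂ) :
    E δ (mz p a) (mz p b) = R a b * exp ((p - 2) * log ‖b‖) := by
  rcases eq_or_ne a 0 with rfl | ha
  · simp [E, R, mz]
  rcases eq_or_ne b 0 with rfl | hb
  · simp [E, R, mz]
  have ha' : 0 < ‖a‖ := norm_pos_iff.2 ha
  have hb' : 0 < ‖b‖ := norm_pos_iff.2 hb
  have h1 : R (mz p a) (mz p b) =
      R a b * (exp ((p - 2) / 2 * log ‖a‖) * exp ((p - 2) / 2 * log ‖b‖)) := by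
    simp only [R_eq, mz, Complex.mul_re, Complex.mul_im, Complex.ofReal_re, Complex.ofReal_im]
    ring
  rw [E, h1, norm_mz, norm_mz, log_mul ha'.ne' (exp_pos _).ne', log_mul hb'.ne' (exp_pos _).ne',
    log_exp, log_exp, mul_assoc, ← exp_add, ← exp_add]
  congr 2
  linear_combination ((log ‖a‖ - log ‖b‖) / 2) * hpδ

lemma norm_mul_exp {p : ℝ} (hp : 1 < p) (a : ℂ) :
    ‖a‖ * exp ((p - 2) * log ‖a‖) = ‖a‖ ^ (p - 1) := by
  rcases eq_or_ne a 0 with rfl | ha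
  · simp [zero_rpow (show p - 1 ≠ 0 by linarith)]
  have ha' : 0 < ‖a‖ := norm_pos_iff.2 ha
  rw [rpow_def_of_pos ha']
  nth_rewrite 1 [← exp_log ha']
  rw [← exp_add]
  congr 1
  ring

lemma R_self_mul_exp {p : ℝ} (hp : 1 < p) (a : ℂ) :
    R a a * exp ((p - 2) * log ‖a‖) = ‖a‖ ^ p := by
  have h1 : R a a = ‖a‖ * ‖a‖ := by rw [R_eq, ← sq ‖a‖, normsq]; ring
  rw [h1, mul_assoc, norm_mul_exp hp]
  have := rpow_add' (norm_nonneg a) (show 1 + (p - 1) ≠ 0 by linarith)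
  rw [rpow_one, show 1 + (p - 1) = p by ring] at this
  exact this.symm

lemma resolvent {p : ℝ} (hp : 1 < p) (z v : ι → ℂ) {μ ε : ℝ} (hε : 0 ≤ ε)
    (hμ : ∑ k, R (v k) (z k) * exp ((p - 2) * log ‖z k‖) ≤ μ * ∑ k, ‖z k‖ ^ p) :
    (1 - ε * μ) * Np p z ≤ Np p (fun k => z k - ε * v k) := by
  set S := ∑ k, ‖z k‖ ^ p with hS
  have hS0 : 0 ≤ S := sum_nn p z
  rcases hS0.eq_or_lt with h0 | h0
  · have : Np p z = 0 := by
      rw [Np, ← hS, ← h0, zero_rpow (by positivity)]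
    rw [this, mul_zero]
    exact Np_nonneg _ _
  have hpq := HolderConjugate.conjExponent hp
  set q := conjExponent p with hq
  have h1 := inner_le_Lp_mul_Lq_of_nonneg univ hpq (f := fun k => ‖z k - ε * v k‖)
    (g := fun k => ‖z k‖ ^ (p - 1)) (fun k _ => norm_nonneg _)
    (fun k _ => rpow_nonneg (norm_nonneg _) _)
  have h2 : ∑ k, (‖z k‖ ^ (p - 1)) ^ q = S := by
    refine sum_congr rfl fun k _ => ?_
    rw [← rpow_mul (norm_nonneg _), hpq.sub_one_mul_conj]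
  rw [h2] at h1
  have h3 : ∑ k, R (z k - ε * v k) (z k) * exp ((p - 2) * log ‖z k‖) ≤
      ∑ k, ‖z k - ε * v k‖ * ‖z k‖ ^ (p - 1) := by
    refine sum_le_sum fun k _ => ?_
    rw [← norm_mul_exp hp, ← mul_assoc]
    exact mul_le_mul_of_nonneg_right ((le_abs_self _).trans (abs_R_le _ _)) (exp_pos _).le
  have h4 : ∑ k, R (z k - ε * v k) (z k) * exp ((p - 2) * log ‖z k‖) =
      S - ε * ∑ k, R (v k) (z k) * exp ((p - 2) * log ‖z k‖) := by
    rw [hS, mul_sum, ← sum_sub_distrib]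
    refine sum_congr rfl fun k _ => ?_
    rw [← R_self_mul_exp hp]
    simp only [R_eq, Complex.sub_re, Complex.sub_im, Complex.mul_re, Complex.mul_im,
      Complex.ofReal_re, Complex.ofReal_im]
    ring
  have h5 : S = S ^ (1 / p) * S ^ (1 / q) := by
    rw [← rpow_add h0, one_div, one_div, hpq.inv_add_inv_eq_one, rpow_one]
  have h6 := mul_le_mul_of_nonneg_left hμ hε
  have h7 : (1 - ε * μ) * S ≤ Np p (fun k => z k - ε * v k) * S ^ (1 / q) := by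
    have : Np p (fun k => z k - ε * v k) = (∑ k, ‖z k - ε * v k‖ ^ p) ^ (1 / p) := rfl
    rw [this]
    linarith
  have h8 : 0 < S ^ (1 / q) := rpow_pos_of_pos h0 _
  have h9 : Np p z = S ^ (1 / p) := rfl
  rw [h9]
  refine le_of_mul_le_mul_right ?_ h8
  rw [mul_assoc, ← h5]
  exact h7

lemma op_bound {M : ℝ} (hM : ∀ a b c d e : ℂ,
    F a b + F b c + F c d + F d e ≤
      √2 * (17 / 100) * (‖a‖ ^ 2 + ‖b‖ ^ 2 + ‖c‖ ^ 2 + ‖d‖ ^ 2) +
      1 / 1000 * (‖a‖ ^ 2 + ‖b‖ ^ 2 + ‖c‖ ^ 2 + ‖d‖ ^ 2 + ‖e‖ ^ 2) +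
      M * (D a b c + D b c d + D c d e)) (hM0 : 0 ≤ M) {p δ : ℝ} (hp : 1 < p)
    (hpδ : p * (1 + δ) = 2) (h0 : 0 ≤ δ) (h1 : δ ≤ 1) (σ : Equiv.Perm ι) {a b c μ ε : ℝ}
    (ha : a = 1 + 4 * √2 * M * δ) (hb : b = 4 * √2 * M * δ - 1) (hc : c = -(4 * M * δ))
    (hμ : μ = 8 * M * δ + 121 / 250 * δ + δ ^ 2 * (16 + 136 * M)) (hε : 0 ≤ ε) (y : ι → ℂ) :
    (1 - ε * μ) * Np p (fun k => y k + ε * psi σ a b c y k) ≤
      (1 + ε ^ 2 * (|a| + |b| + |c|) ^ 2) * Np p y := by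
  set z : ι → ℂ := fun k => y k + ε * psi σ a b c y k with hz
  have key := form_bound σ hM0 (fun k => mz p (z k)) (A_bound σ hM hM0 _) h0 h1
  simp only [E_mz hpδ, norm_mz_sq hp] at key
  rw [← ha, ← hb, ← hc, ← hμ] at key
  have e2 := sum_shift σ (fun k => R (z (σ.symm k)) (z k) * exp ((p - 2) * log ‖z k‖))
  have e3 := sum_shift σ (fun k => R (z (σ.symm (σ.symm k))) (z k) * exp ((p - 2) * log ‖z k‖))
  have e4 := sum_shift σ (fun k => R (z (σ.symm k)) (z (σ k)) * exp ((p - 2) * log ‖z (σ k)‖))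
  simp only [Equiv.symm_apply_apply] at e2 e3 e4
  rw [e2, e4, e3] at key
  have h2 := resolvent hp z (psi σ a b c z) hε (μ := μ) (by
    refine le_trans (le_of_eq ?_) key
    simp only [mul_sum, ← sum_add_distrib]
    refine sum_congr rfl fun k _ => ?_
    simp only [psi, R_eq, Complex.add_re, Complex.add_im, Complex.mul_re, Complex.mul_im,
      Complex.ofReal_re, Complex.ofReal_im]
    ring)
  have h3 : (fun k => z k - ε * psi σ a b c z k) =
      fun k => y k + ((-ε ^ 2 : ℝ) : ℂ) * psi σ a b c (psi σ a b c y) k := by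
    funext k
    simp only [hz, psi]
    push_cast
    ring
  rw [h3] at h2
  have h4 := Np_add hp y (fun k => ((-ε ^ 2 : ℝ) : ℂ) * psi σ a b c (psi σ a b c y) k)
  rw [Np_mul hp, abs_neg, abs_of_nonneg (sq_nonneg ε)] at h4
  have h5 := Np_psi hp σ a b c (psi σ a b c y)
  have h6 := mul_le_mul_of_nonneg_left (Np_psi hp σ a b c y)
    (show 0 ≤ |a| + |b| + |c| by positivity)
  have h7 := mul_le_mul_of_nonneg_left (h5.trans h6) (sq_nonneg ε)
  nlinarith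

end Cyc

end Pool.Agent.Lib.MP_a13136_an
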