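import Mathlib

namespace Pool.Agent.Lib.MP_a13136_an

open Real Finset ComplexConjugate

lemma abs_le_cosh (u : ℝ) : |u| ≤ 17 / 25 * cosh u := by
  have h := sum_le_hasSum (range 3) (fun i _ => by
    have : 0 ≤ u ^ (2 * i) := by rw [pow_mul]; positivity
    positivity) (Real.hasSum_cosh u)
  simp only [sum_range_succ, range_zero, sum_empty, Nat.factorial] at h
  norm_num at h
  rw [abs_le]
  constructor <;>
    nlinarith [sq_nonneg (u ^ 2 - 7 / 5), sq_nonneg (u - 6 / 5), sq_nonneg (u + 6 / 5)]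

lemma logpair {r s : ℝ} (hr : 0 ≤ r) (hs : 0 ≤ s) :
    |log r - log s| * (r * s) ≤ 17 / 50 * (r ^ 2 + s ^ 2) := by
  rcases hr.eq_or_lt with rfl | hr
  · simp only [zero_mul, mul_zero]; positivity
  rcases hs.eq_or_lt with rfl | hs
  · simp only [mul_zero]; positivity
  have h := abs_le_cosh (log r - log s)
  rw [cosh_eq, neg_sub, exp_sub, exp_sub, exp_log hr, exp_log hs] at h
  have h2 : (r / s + s / r) * (r * s) = r ^ 2 + s ^ 2 := by field_simp
  have h3 := mul_le_mul_of_nonneg_right h (mul_pos hr hs).le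
  nlinarith

lemma logsign {r s c : ℝ} (hr : 0 ≤ r) (hs : 0 ≤ s) (hc : |c| ≤ r * s)
    (h : 0 ≤ c * (r ^ 2 - s ^ 2)) : 0 ≤ c * (log r - log s) := by
  rcases eq_or_ne c 0 with rfl | hc0
  · simp
  have hpos : 0 < r * s := lt_of_lt_of_le (abs_pos.2 hc0) hc
  have hr' : 0 < r := by
    rcases hr.eq_or_lt with rfl | hr
    · simp at hpos
    · exact hr
  have hs' : 0 < s := by
    rcases hs.eq_or_lt with rfl | hs
    · simp at hpos
    · exact hs
  rcases lt_trichotomy r s with hlt | rfl | hlt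
  · have h1 : r ^ 2 - s ^ 2 < 0 := by nlinarith
    have h2 : c ≤ 0 := by
      by_contra h3
      have := mul_neg_of_pos_of_neg (not_le.1 h3) h1
      linarith
    have h3 : log r ≤ log s := log_le_log hr' hlt.le
    nlinarith
  · simp
  · have h1 : 0 < r ^ 2 - s ^ 2 := by nlinarith
    have h2 : 0 ≤ c := by
      by_contra h3
      have := mul_neg_of_neg_of_pos (not_le.1 h3) h1
      linarith
    have h3 : log s ≤ log r := log_le_log hs' hlt.le
    nlinarith

/-- real part of `a * conj b` -/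
noncomputable def R (a b : ℂ) : ℝ := (a * conj b).re

/-- first order asymmetry term -/
noncomputable def F (a b : ℂ) : ℝ := R a b * (log ‖b‖ - log ‖a‖)

lemma abs_R_le (a b : ℂ) : |R a b| ≤ ‖a‖ * ‖b‖ := by
  have := Complex.abs_re_le_norm (a * conj b)
  simpa [R] using this

lemma R_eq (a b : ℂ) : R a b = a.re * b.re + a.im * b.im := by
  simp [R]

lemma R_comm (a b : ℂ) : R a b = R b a := by
  rw [R_eq, R_eq]; ring

lemma normsq (a : ℂ) : ‖a‖ ^ 2 = a.re ^ 2 + a.im ^ 2 := by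
  rw [Complex.sq_norm, Complex.normSq_apply]; ring

lemma abs_F_le (a b : ℂ) : |F a b| ≤ ‖a‖ ^ 2 + ‖b‖ ^ 2 := by
  have h1 := logpair (norm_nonneg b) (norm_nonneg a)
  have h2 := abs_R_le a b
  rw [F, abs_mul]
  have h3 := mul_le_mul_of_nonneg_right h2 (abs_nonneg (log ‖b‖ - log ‖a‖))
  nlinarith [sq_nonneg ‖a‖, sq_nonneg ‖b‖]

lemma exact_window (a b : ℂ) :
    F a b + F b ((√2 : ℝ) * b - a) + F ((√2 : ℝ) * b - a) (b - (√2 : ℝ) * a) +
      F (b - (√2 : ℝ) * a) (-a) ≤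
      √2 * (17 / 100) * (‖a‖ ^ 2 + ‖b‖ ^ 2 + ‖(√2 : ℝ) * b - a‖ ^ 2 + ‖b - (√2 : ℝ) * a‖ ^ 2) := by
  have hs : (√2 : ℝ) * √2 = 2 := mul_self_sqrt (by norm_num)
  have hs0 : (0 : ℝ) ≤ √2 := sqrt_nonneg _
  set c : ℂ := (√2 : ℝ) * b - a with hc
  set d : ℂ := b - (√2 : ℝ) * a with hd
  set s : ℝ := √2 with hsdef
  have cre : c.re = s * b.re - a.re := by simp [hc]
  have cim : c.im = s * b.im - a.im := by simp [hc]
  have dre : d.re = b.re - s * a.re := by simp [hd]
  have dim : d.im = b.im - s * a.im := by simp [hd]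
  set Y := R a c with hY
  set X := -R b d with hX
  have e1 : R d (-a) - R a b = -s * Y := by
    simp only [hY, R_eq, cre, cim, dre, dim, Complex.neg_re, Complex.neg_im]
    linear_combination (a.re * b.re + a.im * b.im) * hs
  have e2 : R b c - R c d = s * Y := by
    simp only [hY, R_eq, cre, cim, dre, dim]
    linear_combination (0 : ℝ) * hs
  have e3 : R a b - R b c = s * X := by
    simp only [hX, R_eq, cre, cim, dre, dim]
    linear_combination (-(a.re * b.re + a.im * b.im)) * hs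
  have e4 : R c d - R d (-a) = -s * X := by
    simp only [hX, R_eq, cre, cim, dre, dim, Complex.neg_re, Complex.neg_im]
    linear_combination (0 : ℝ) * hs
  have e5 : ‖a‖ ^ 2 - ‖c‖ ^ 2 = 2 * X := by
    simp only [hX, R_eq, normsq, cre, cim, dre, dim]
    linear_combination (-(b.re ^ 2 + b.im ^ 2)) * hs
  have e6 : ‖b‖ ^ 2 - ‖d‖ ^ 2 = 2 * Y := by
    simp only [hY, R_eq, normsq, cre, cim, dre, dim]
    linear_combination (-(a.re ^ 2 + a.im ^ 2)) * hs
  have e7 : ‖a‖ ^ 2 + ‖c‖ ^ 2 = ‖b‖ ^ 2 + ‖d‖ ^ 2 := by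
    simp only [normsq, cre, cim, dre, dim]
    linear_combination (b.re ^ 2 + b.im ^ 2 - a.re ^ 2 - a.im ^ 2) * hs
  have hYa : |Y| ≤ ‖a‖ * ‖c‖ := abs_R_le a c
  have hXa : |X| ≤ ‖b‖ * ‖d‖ := by rw [hX, abs_neg]; exact abs_R_le b d
  set U := log ‖a‖ - log ‖c‖ with hU
  set V := log ‖b‖ - log ‖d‖ with hV
  have key : F a b + F b c + F c d + F d (-a) = s * (-(Y * U) + X * V) := by
    simp only [F, norm_neg, hU, hV]
    linear_combination (log ‖a‖) * e1 + (log ‖c‖) * e2 + (log ‖b‖) * e3 + (log ‖d‖) * e4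
  rw [key, mul_assoc]
  apply mul_le_mul_of_nonneg_left _ hs0
  have b1 : |Y * U| ≤ 17 / 50 * (‖a‖ ^ 2 + ‖c‖ ^ 2) := by
    have := logpair (norm_nonneg a) (norm_nonneg c)
    rw [abs_mul]
    have h3 := mul_le_mul_of_nonneg_right hYa (abs_nonneg U)
    nlinarith
  have b2 : |X * V| ≤ 17 / 50 * (‖b‖ ^ 2 + ‖d‖ ^ 2) := by
    have := logpair (norm_nonneg b) (norm_nonneg d)
    rw [abs_mul]
    have h3 := mul_le_mul_of_nonneg_right hXa (abs_nonneg V)
    nlinarith
  rcases le_total 0 (X * Y) with hxy | hxy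
  · have := logsign (norm_nonneg a) (norm_nonneg c) hYa (by rw [e5]; linarith)
    have h2 := le_abs_self (X * V)
    linarith
  · have := logsign (c := -X) (norm_nonneg b) (norm_nonneg d) (by rwa [abs_neg])
      (by rw [e6]; linarith)
    have h2 := neg_abs_le (Y * U)
    linarith

lemma continuous_mul_log_norm : Continuous fun a : ℂ => a * (log ‖a‖ : ℝ) := by
  rw [continuous_iff_continuousAt]
  intro a
  rcases eq_or_ne a 0 with rfl | ha
  · rw [ContinuousAt, zero_mul, tendsto_zero_iff_norm_tendsto_zero]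
    have h1 : Continuous fun a : ℂ => |‖a‖ * log ‖a‖| :=
      (continuous_mul_log.comp continuous_norm).abs
    have h2 := h1.tendsto 0
    simp only [norm_zero, zero_mul, abs_zero] at h2
    convert h2 using 2 with a
    simp [abs_mul]
  · have h1 : ContinuousAt (fun a : ℂ => log ‖a‖) a :=
      continuous_norm.continuousAt.log (norm_ne_zero_iff.2 ha)
    exact continuousAt_id.mul (Complex.continuous_ofReal.continuousAt.comp h1)

lemma F_eq (a b : ℂ) :
    F a b = (a * conj (b * (log ‖b‖ : ℝ))).re - ((a * (log ‖a‖ : ℝ)) * conj b).re := by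
  simp only [F, R_eq, map_mul, Complex.conj_ofReal, Complex.mul_re, Complex.mul_im,
    Complex.conj_re, Complex.conj_im, Complex.ofReal_re, Complex.ofReal_im]
  ring

lemma continuous_F {X : Type} [TopologicalSpace X] {f g : X → ℂ} (hf : Continuous f)
    (hg : Continuous g) : Continuous fun x => F (f x) (g x) := by
  simp only [F_eq]
  have h1 := continuous_mul_log_norm.comp hf
  have h2 := continuous_mul_log_norm.comp hg
  exact (Complex.continuous_re.comp (hf.mul (Complex.continuous_conj.comp h2))).sub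
    (Complex.continuous_re.comp (h1.mul (Complex.continuous_conj.comp hg)))

lemma F_smul {t : ℝ} (ht : 0 < t) (a b : ℂ) : F (t • a) (t • b) = t ^ 2 * F a b := by
  rcases eq_or_ne a 0 with rfl | ha
  · simp [F, R]
  rcases eq_or_ne b 0 with rfl | hb
  · simp [F, R]
  have h1 : R (t • a) (t • b) = t ^ 2 * R a b := by
    simp only [R_eq, Complex.smul_re, Complex.smul_im, smul_eq_mul]; ring
  rw [F, F, h1, norm_smul, norm_smul, Real.norm_eq_abs, abs_of_pos ht,
    log_mul ht.ne' (norm_ne_zero_iff.2 ha), log_mul ht.ne' (norm_ne_zero_iff.2 hb)]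
  ring

lemma compactness {E : Type} [NormedAddCommGroup E] [NormedSpace ℝ E] [ProperSpace E]
    {f g : E → ℝ} (hf : Continuous f) (hg : Continuous g) (hg0 : ∀ x, 0 ≤ g x)
    (hfh : ∀ t : ℝ, 0 < t → ∀ x, f (t • x) = t ^ 2 * f x)
    (hgh : ∀ t : ℝ, 0 < t → ∀ x, g (t • x) = t ^ 2 * g x)
    (hfg : ∀ x, g x = 0 → f x ≤ 0) {η : ℝ} (hη : 0 < η) :
    ∃ M : ℝ, 0 ≤ M ∧ ∀ x, f x ≤ η * ‖x‖ ^ 2 + M * g x := by
  have hc : IsCompact (Metric.sphere (0 : E) 1) := isCompact_sphere _ _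
  obtain ⟨n, hn⟩ := hc.elim_directed_cover (fun n : ℕ => {x | f x < η + n * g x})
    (fun n => isOpen_lt hf (continuous_const.add (continuous_const.mul hg)))
    (by
      intro x _
      rcases (hg0 x).eq_or_lt with h0 | h0
      · refine Set.mem_iUnion.2 ⟨0, ?_⟩
        have := hfg x h0.symm
        simp only [Set.mem_ofPred_eq, Nat.cast_zero, zero_mul, add_zero]
        linarith
      · obtain ⟨n, hn⟩ := exists_nat_gt ((f x - η) / g x)
        refine Set.mem_iUnion.2 ⟨n, ?_⟩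
        rw [div_lt_iff₀ h0] at hn
        simp only [Set.mem_ofPred_eq]
        linarith)
    (by
      apply directed_of_isDirected_le
      intro i j hij x hx
      simp only [Set.mem_ofPred_eq] at hx ⊢
      have : (i : ℝ) * g x ≤ j * g x := mul_le_mul_of_nonneg_right (by exact_mod_cast hij) (hg0 x)
      linarith)
  refine ⟨n, Nat.cast_nonneg n, fun x => ?_⟩
  rcases eq_or_ne x 0 with rfl | hx
  · have h1 := hgh 2 (by norm_num) 0
    rw [smul_zero] at h1
    have h2 : g 0 = 0 := by linarith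
    have := hfg 0 h2
    simp [h2, this]
  · have hn0 : 0 < ‖x‖ := norm_pos_iff.2 hx
    have hy : (‖x‖⁻¹ • x) ∈ Metric.sphere (0 : E) 1 := by
      simp [norm_smul, hn0.ne']
    have h1 := hn hy
    simp only [Set.mem_ofPred_eq] at h1
    have hxx : x = ‖x‖ • (‖x‖⁻¹ • x) := by
      rw [smul_smul, mul_inv_cancel₀ hn0.ne', one_smul]
    have h2 := hfh _ hn0 (‖x‖⁻¹ • x)
    have h3 := hgh _ hn0 (‖x‖⁻¹ • x)
    rw [← hxx] at h2 h3
    rw [h2, h3]
    have h4 := mul_le_mul_of_nonneg_left h1.le (sq_nonneg ‖x‖)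
    linarith

/-- defect of the recurrence -/
noncomputable def D (a b c : ℂ) : ℝ := ‖c - (√2 : ℝ) * b + a‖ ^ 2

lemma window : ∃ M : ℝ, 0 ≤ M ∧ ∀ a b c d e : ℂ,
    F a b + F b c + F c d + F d e ≤
      √2 * (17 / 100) * (‖a‖ ^ 2 + ‖b‖ ^ 2 + ‖c‖ ^ 2 + ‖d‖ ^ 2) +
      1 / 1000 * (‖a‖ ^ 2 + ‖b‖ ^ 2 + ‖c‖ ^ 2 + ‖d‖ ^ 2 + ‖e‖ ^ 2) +
      M * (D a b c + D b c d + D c d e) := by
  have hD : ∀ t : ℝ, 0 < t → ∀ a b c : ℂ, D (t • a) (t • b) (t • c) = t ^ 2 * D a b c := by
    intro t ht a b c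
    have : t • c - (√2 : ℝ) * (t • b) + t • a = t • (c - (√2 : ℝ) * b + a) := by
      simp only [Complex.real_smul]; ring
    rw [D, D, this, norm_smul, Real.norm_eq_abs, abs_of_pos ht, mul_pow]
  have hD0 : ∀ a b c : ℂ, 0 ≤ D a b c := fun a b c => sq_nonneg _
  have hN : ∀ t : ℝ, 0 < t → ∀ a : ℂ, ‖t • a‖ ^ 2 = t ^ 2 * ‖a‖ ^ 2 := by
    intro t ht a
    rw [norm_smul, Real.norm_eq_abs, abs_of_pos ht, mul_pow]
  obtain ⟨M, hM, h⟩ := compactness (E := Fin 5 → ℂ)
    (f := fun x => F (x 0) (x 1) + F (x 1) (x 2) + F (x 2) (x 3) + F (x 3) (x 4) -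
      √2 * (17 / 100) * (‖x 0‖ ^ 2 + ‖x 1‖ ^ 2 + ‖x 2‖ ^ 2 + ‖x 3‖ ^ 2))
    (g := fun x => D (x 0) (x 1) (x 2) + D (x 1) (x 2) (x 3) + D (x 2) (x 3) (x 4))
    (by
      refine Continuous.sub ?_ (by fun_prop)
      exact (((continuous_F (continuous_apply 0) (continuous_apply 1)).add
        (continuous_F (continuous_apply 1) (continuous_apply 2))).add
        (continuous_F (continuous_apply 2) (continuous_apply 3))).add
        (continuous_F (continuous_apply 3) (continuous_apply 4)))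
    (by unfold D; fun_prop)
    (fun x => add_nonneg (add_nonneg (hD0 ..) (hD0 ..)) (hD0 ..))
    (by
      intro t ht x
      simp only [Pi.smul_apply, F_smul ht, hN t ht]
      ring)
    (by
      intro t ht x
      simp only [Pi.smul_apply, hD t ht]
      ring)
    (by
      intro x hx
      have hs : ((√2 : ℝ) : ℂ) * (√2 : ℝ) = 2 := by
        rw [← Complex.ofReal_mul, mul_self_sqrt (by norm_num)]; norm_num
      have h0 := hD0 (x 0) (x 1) (x 2)
      have h1 := hD0 (x 1) (x 2) (x 3)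
      have h2 := hD0 (x 2) (x 3) (x 4)
      have z0 : D (x 0) (x 1) (x 2) = 0 := by linarith
      have z1 : D (x 1) (x 2) (x 3) = 0 := by linarith
      have z2 : D (x 2) (x 3) (x 4) = 0 := by linarith
      simp only [D, ne_eq, OfNat.ofNat_ne_zero, not_false_eq_true, pow_eq_zero_iff,
        norm_eq_zero] at z0 z1 z2
      have y2 : x 2 = (√2 : ℝ) * x 1 - x 0 := by linear_combination z0
      have y3 : x 3 = x 1 - (√2 : ℝ) * x 0 := by
        linear_combination z1 + (√2 : ℝ) * z0 + x 1 * hs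
      have y4 : x 4 = -x 0 := by
        linear_combination z2 + (√2 : ℝ) * y3 - y2 - x 0 * hs
      have := exact_window (x 0) (x 1)
      rw [← y2, ← y3, ← y4] at this
      linarith)
    (η := 1 / 1000) (by norm_num)
  refine ⟨M, hM, fun a b c d e => ?_⟩
  have h1 := h ![a, b, c, d, e]
  have h2 : ‖(![a, b, c, d, e] : Fin 5 → ℂ)‖ ^ 2 ≤
      ‖a‖ ^ 2 + ‖b‖ ^ 2 + ‖c‖ ^ 2 + ‖d‖ ^ 2 + ‖e‖ ^ 2 := by
    have hS : 0 ≤ ‖a‖ ^ 2 + ‖b‖ ^ 2 + ‖c‖ ^ 2 + ‖d‖ ^ 2 + ‖e‖ ^ 2 := by positivity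
    rw [← le_sqrt (norm_nonneg _) hS, pi_norm_le_iff_of_nonneg (sqrt_nonneg _)]
    intro i
    rw [le_sqrt (norm_nonneg _) hS]
    have := sq_nonneg ‖a‖
    have := sq_nonneg ‖b‖
    have := sq_nonneg ‖c‖
    have := sq_nonneg ‖d‖
    have := sq_nonneg ‖e‖
    fin_cases i <;> simp <;> linarith
  simp only [Matrix.cons_val_zero, Matrix.cons_val_one, Matrix.cons_val] at h1
  linarith

end Pool.Agent.Lib.MP_a13136_an
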